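import Mathlib

open Filter Topology Projectivization Matrix
open scoped LinearAlgebra.Projectivization

namespace H11.MK

/-- `inj(H, G)` for the bipartite graph `H` with classes `A`, `B` and edge relation `E`, and `G` the
point-line incidence graph of the projective plane over `K` (lines in dual coordinates: a point lies
on a line when the dot product vanishes). -/
noncomputable def inj {A B : Type} (E : A → B → Prop) (K : Type) [Field K] : ℕ :=
  Nat.card {f : (A → ℙ K (Fin 3 → K)) × (B → ℙ K (Fin 3 → K)) //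
    f.1.Injective ∧ f.2.Injective ∧ ∀ x y, E x y → orthogonal (f.1 x) (f.2 y)}

/-- `log_p inj(H, G_p)`, with `log_p 0 = -∞`. -/
noncomputable def lg {A B : Type} (E : A → B → Prop) (p : ℕ) [Fact p.Prime] : EReal :=
  if inj E (ZMod p) = 0 then ⊥ else (Real.logb p (inj E (ZMod p)) : ℝ)

def E0 (i j : Fin 8) : Prop := i = j ∨ i = j + 1 ∨ i = j + 3

instance : DecidableRel E0 := fun i j => by unfold E0; infer_instance

theorem root {K : Type} [Field K] (P L : Fin 8 → ℙ K (Fin 3 → K)) (hP : P.Injective)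
    (hL : L.Injective) (h : ∀ x y, E0 x y → orthogonal (P x) (L y)) :
    ∃ w : K, w ^ 2 + w + 1 = 0 := by
  classical
  let V : Matrix (Fin 8) (Fin 3) K := .of fun i => (P i).rep
  have key : ∀ t : Fin 3 → Fin 8, (V.submatrix t id).det = 0 ↔
      ∃ m, ∀ i, orthogonal (P (t i)) m := by
    intro t
    rw [← Matrix.exists_mulVec_eq_zero_iff]
    constructor
    · rintro ⟨v, hv, h⟩
      refine ⟨mk K v hv, fun i => ?_⟩
      rw [← (P (t i)).mk_rep, orthogonal_mk]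
      exact congrFun h i
    · rintro ⟨m, h⟩
      refine ⟨m.rep, m.rep_nonzero, funext fun i => ?_⟩
      have := h i
      rw [← (P (t i)).mk_rep, ← m.mk_rep, orthogonal_mk] at this
      exact this
  have nz : ∀ t : Fin 3 → Fin 8, (∃ i j k l l', l ≠ l' ∧ t i ≠ t j ∧ t i ≠ t k ∧ E0 (t i) l ∧
      E0 (t j) l ∧ E0 (t i) l' ∧ E0 (t k) l') → (V.submatrix t id).det ≠ 0 := by
    rintro t ⟨i, j, k, l, l', h1, h2, h3, h4, h5, h6, h7⟩ h0
    obtain ⟨m, hm⟩ := (key t).1 h0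
    have a := (Configuration.ofField.eq_or_eq_of_orthogonal (h _ _ h4) (h _ _ h5) (hm i)
      (hm j)).resolve_left fun e => h2 (hP e)
    have b := (Configuration.ofField.eq_or_eq_of_orthogonal (h _ _ h6) (h _ _ h7) (hm i)
      (hm k)).resolve_left fun e => h3 (hP e)
    exact h1 (hL (a.trans b.symm))
  have hM := nz ![0, 1, 2] (by decide)
  set M := V.submatrix ![0, 1, 2] id with hMd
  let W := V * M⁻¹
  have hW : ∀ t : Fin 3 → Fin 8, (W.submatrix t id).det * M.det = (V.submatrix t id).det := by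
    intro t
    have : W.submatrix t id = V.submatrix t id * M⁻¹ := rfl
    rw [this, det_mul, mul_assoc, det_nonsing_inv_mul_det _ hM.isUnit, mul_one]
  have h1 : W.submatrix ![0, 1, 2] id = 1 := mul_nonsing_inv M hM.isUnit
  have w : ∀ i j : Fin 3, W (![0, 1, 2] i) j = (1 : Matrix (Fin 3) (Fin 3) K) i j := fun i j =>
    congrFun (congrFun h1 i) j
  have w00 : W 0 0 = 1 := w 0 0
  have w01 : W 0 1 = 0 := w 0 1
  have w02 : W 0 2 = 0 := w 0 2
  have w10 : W 1 0 = 0 := w 1 0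
  have w11 : W 1 1 = 1 := w 1 1
  have w12 : W 1 2 = 0 := w 1 2
  have w20 : W 2 0 = 0 := w 2 0
  have w21 : W 2 1 = 0 := w 2 1
  have w22 : W 2 2 = 1 := w 2 2
  have z : ∀ j : Fin 8, (W.submatrix ![j, j + 1, j + 3] id).det = 0 := by
    intro j
    refine (mul_eq_zero.1 ((hW _).trans ((key _).2 ⟨L j, fun i => h _ _ ?_⟩))).resolve_right hM
    fin_cases i <;> simp [E0]
  have n : ∀ t : Fin 3 → Fin 8, (V.submatrix t id).det ≠ 0 → (W.submatrix t id).det ≠ 0 :=
    fun t h e => h (by rw [← hW, e, zero_mul])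
  have z0 : (W.submatrix ![0, 1, 3] id).det = 0 := z 0
  have z1 : (W.submatrix ![1, 2, 4] id).det = 0 := z 1
  have z2 : (W.submatrix ![2, 3, 5] id).det = 0 := z 2
  have z3 : (W.submatrix ![3, 4, 6] id).det = 0 := z 3
  have z4 : (W.submatrix ![4, 5, 7] id).det = 0 := z 4
  have z5 : (W.submatrix ![5, 6, 0] id).det = 0 := z 5
  have z6 : (W.submatrix ![6, 7, 1] id).det = 0 := z 6
  have z7 : (W.submatrix ![7, 0, 2] id).det = 0 := z 7
  have n1 := n _ (nz ![3, 1, 2] (by decide))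
  have n2 := n _ (nz ![7, 1, 2] (by decide))
  have n3 := n _ (nz ![0, 6, 2] (by decide))
  have n4 := n _ (nz ![0, 5, 2] (by decide))
  have n5 := n _ (nz ![0, 1, 4] (by decide))
  generalize W = W at *
  simp only [det_fin_three, submatrix_apply, id, cons_val, w00, w01, w02, w10, w11, w12, w20, w21,
    w22, mul_zero, zero_mul, mul_one, one_mul, sub_zero, add_zero, zero_add, zero_sub,
    neg_eq_zero] at z0 z1 z2 z3 z4 z5 z6 z7 n1 n2 n3 n4 n5
  simp only [z0, z1, z7, mul_zero, zero_mul, sub_zero, add_zero, zero_add, zero_sub] at z3 z4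
  refine ⟨-(W 5 2 * W 4 1) / (W 5 1 * W 4 2), ?_⟩
  have : W 3 0 * W 7 0 * W 6 1 * ((W 5 2 * W 4 1) ^ 2 - (W 5 2 * W 4 1) * (W 5 1 * W 4 2) +
      (W 5 1 * W 4 2) ^ 2) = 0 := by
    grind
  have := (mul_eq_zero.1 this).resolve_left (by simp [n1, n2, n3])
  field_simp
  linear_combination this

def pt : Fin 8 → Fin 3 → ℤ × ℤ := ![![(1, 0), 0, 0], ![0, (1, 0), 0], ![0, 0, (1, 0)],
  ![(1, 0), (1, 0), 0], ![0, (1, 0), (1, 0)], ![(1, 0), (1, 0), (0, 1)],
  ![(1, 0), (0, 1), (-1, 1)], ![(1, 0), 0, (-1, 1)]]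

def ln : Fin 8 → Fin 3 → ℤ × ℤ := ![![0, 0, (1, 0)], ![(1, 0), 0, 0], ![(1, 0), (-1, 0), 0],
  ![(1, 0), (-1, 0), (1, 0)], ![(1, -1), (-1, 0), (1, 0)], ![0, (0, 1), (-1, 0)],
  ![(-1, 1), 0, (-1, 0)], ![0, (1, 0), 0]]

def ml (x y : ℤ × ℤ) : ℤ × ℤ := (x.1 * y.1 - x.2 * y.2, x.1 * y.2 + x.2 * y.1 + x.2 * y.2)

def dt (i j : Fin 8) : ℤ × ℤ := ml (pt i 0) (ln j 0) + ml (pt i 1) (ln j 1) + ml (pt i 2) (ln j 2)

def nm (x : ℤ × ℤ) : ℤ := x.1 ^ 2 + x.1 * x.2 + x.2 ^ 2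

theorem tab : ∀ i j, (E0 i j ∧ dt i j = 0) ∨ (¬ E0 i j ∧ (nm (dt i j) = 1 ∨ nm (dt i j) = 3)) := by
  decide

theorem ex {K : Type} [Field K] (w : K) (hw : w ^ 2 - w + 1 = 0) (h3 : (3 : K) ≠ 0) :
    ∃ P L : Fin 8 → ℙ K (Fin 3 → K), P.Injective ∧ L.Injective ∧
      ∀ x y, E0 x y → orthogonal (P x) (L y) := by
  let ev : ℤ × ℤ → K := fun x => x.1 + x.2 * w
  have h1 : ∀ i j, (fun k => ev (pt i k)) ⬝ᵥ (fun k => ev (ln j k)) = 0 ↔ E0 i j := by
    intro i j
    have e : (fun k => ev (pt i k)) ⬝ᵥ (fun k => ev (ln j k)) = ev (dt i j) := by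
      simp only [dotProduct, Fin.sum_univ_three, ev, dt, ml, Prod.fst_add, Prod.snd_add]
      push_cast
      linear_combination ((pt i 0).2 * (ln j 0).2 + (pt i 1).2 * (ln j 1).2 +
        (pt i 2).2 * (ln j 2).2 : K) * hw
    rw [e]
    rcases tab i j with ⟨a, b⟩ | ⟨a, b⟩
    · simp [a, b, ev]
    · refine ⟨fun h => ?_, fun h => absurd h a⟩
      have : ((nm (dt i j) : ℤ) : K) = 0 := by
        simp only [ev] at h
        simp only [nm]
        push_cast
        linear_combination ((dt i j).1 + (dt i j).2 * (1 - w)) * h + ((dt i j).2 : K) ^ 2 * hw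
      rcases b with b | b <;> simp [b, h3] at this
  have hp : ∀ i, (fun k => ev (pt i k)) ≠ 0 := fun i h =>
    (by decide : ∀ i, ¬ E0 i (i + 1)) i ((h1 i _).1 (by rw [h, zero_dotProduct]))
  have hl : ∀ j, (fun k => ev (ln j k)) ≠ 0 := fun j h =>
    (by decide : ∀ j, ¬ E0 (j + 2) j) j ((h1 _ j).1 (by rw [h, dotProduct_zero]))
  have h2 : ∀ i j, orthogonal (mk K _ (hp i)) (mk K _ (hl j)) ↔ E0 i j := fun i j => by
    rw [orthogonal_mk, h1]
  refine ⟨fun i => mk K _ (hp i), fun j => mk K _ (hl j), fun a b e => ?_, fun a b e => ?_,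
    fun x y => (h2 x y).2⟩
  · refine (by decide : ∀ a b, (∀ j, E0 a j ↔ E0 b j) → a = b) a b fun j => ?_
    rw [← h2, ← h2, show mk K _ (hp a) = mk K _ (hp b) from e]
  · refine (by decide : ∀ a b, (∀ j, E0 j a ↔ E0 j b) → a = b) a b fun j => ?_
    rw [← h2, ← h2, show mk K _ (hl a) = mk K _ (hl b) from e]

theorem zero (p : ℕ) [Fact p.Prime] (h : p % 3 = 2) : inj E0 (ZMod p) = 0 := by
  refine Nat.card_eq_zero.2 (.inl ⟨fun ⟨f, h1, h2, h3⟩ => ?_⟩)
  obtain ⟨w, hw⟩ := root f.1 f.2 h1 h2 h3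
  have h0 : w ≠ 0 := by rintro rfl; simp at hw
  have a : w ^ 3 = 1 := by linear_combination (w - 1) * hw
  have b := ZMod.pow_card_sub_one_eq_one h0
  rw [show p - 1 = 3 * (p / 3) + 1 by omega, pow_succ, pow_mul, a, one_pow, one_mul] at b
  subst b
  have : ((3 : ℕ) : ZMod p) = 0 := by push_cast; linear_combination hw
  rw [ZMod.natCast_eq_zero_iff, Nat.prime_dvd_prime_iff_eq Fact.out Nat.prime_three] at this
  omega

theorem one (p : ℕ) [Fact p.Prime] (h : p % 3 = 1) : 1 ≤ inj E0 (ZMod p) := by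
  haveI := Fact.mk Nat.prime_three
  obtain ⟨u, hu⟩ := exists_prime_orderOf_dvd_card (G := (ZMod p)ˣ) 3
    (by rw [ZMod.card_units]; omega)
  have a : (u : ZMod p) ^ 3 = 1 := by rw [← Units.val_pow_eq_pow_val, ← hu, pow_orderOf_eq_one]; rfl
  have b : (u : ZMod p) - 1 ≠ 0 := fun e => by
    rw [Units.val_eq_one.1 (sub_eq_zero.1 e)] at hu
    simp at hu
  obtain ⟨P, L, h⟩ := ex (-(u : ZMod p)) (mul_left_cancel₀ b (by linear_combination a)) fun e => by
    have : ((3 : ℕ) : ZMod p) = 0 := by exact_mod_cast e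
    rw [ZMod.natCast_eq_zero_iff, Nat.prime_dvd_prime_iff_eq Fact.out Nat.prime_three] at this
    omega
  exact Nat.card_pos_iff.2 ⟨⟨⟨(P, L), h⟩⟩, inferInstance⟩

theorem freq (a : ℕ) (ha : a.Coprime 3) (h3 : a < 3) :
    ∃ᶠ k in atTop, Nat.nth Nat.Prime k % 3 = a := by
  refine frequently_atTop.2 fun n => ?_
  obtain ⟨p, h1, h2, h4⟩ := Nat.forall_exists_prime_gt_and_modEq (Nat.nth Nat.Prime n)
    (by norm_num) ha
  refine ⟨Nat.count Nat.Prime p, ?_, ?_⟩
  · refine (Nat.nth_le_nth Nat.infinite_setOf_prime).1 ?_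
    rw [Nat.nth_count h2]
    exact h1.le
  · rw [Nat.nth_count h2, h4, Nat.mod_eq_of_lt h3]

end H11.MK

open H11.MK

theorem Pool.Agent.Results.MP_5e7574_co.Counter.result :
    ∃ E : Fin 8 → Fin 8 → Prop, (∃ x y, E x y) ∧
      (∀ (p : ℕ) [Fact p.Prime], (p % 3 = 2 → inj E (ZMod p) = 0) ∧
        (p % 3 = 1 → 1 ≤ inj E (ZMod p))) ∧
      ¬ ∃ l : EReal,
        Tendsto (fun k => @lg _ _ E (Nat.nth Nat.Prime k) ⟨Nat.prime_nth_prime k⟩) atTop (𝓝 l) := by
  refine ⟨E0, ⟨0, 0, .inl rfl⟩, fun p _ => ⟨zero p, one p⟩, fun ⟨l, hl⟩ => ?_⟩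
  have h1 : l ∈ Set.Iic ⊥ := isClosed_Iic.mem_of_frequently_of_tendsto
    ((freq 2 (by norm_num) (by norm_num)).mono fun k hk => by
      haveI := Fact.mk (Nat.prime_nth_prime k)
      simp [lg, zero _ hk]) hl
  have h2 : l ∈ Set.Ici 0 := isClosed_Ici.mem_of_frequently_of_tendsto
    ((freq 1 (by norm_num) (by norm_num)).mono fun k hk => by
      haveI := Fact.mk (Nat.prime_nth_prime k)
      have := one _ hk
      rw [Set.mem_Ici, lg, if_neg (by omega), EReal.coe_nonneg]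
      exact Real.logb_nonneg (by exact_mod_cast (Nat.prime_nth_prime k).one_lt)
        (by exact_mod_cast this)) hl
  simpa using le_trans (Set.mem_Ici.1 h2) (Set.mem_Iic.1 h1)
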